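import Pool.Agent.Lib.MP_30394b_an.Key

/-!
# The set of everywhere Pringsheim-singular smooth functions is strongly `𝔠`-algebrable

For `𝕜 = ℝ` or `ℂ`, there is a set `S` of continuum many algebraically independent elements of
`C([0,1], 𝕜)` such that every nonzero element of the (non-unital) algebra generated by `S` is
infinitely differentiable and has a Pringsheim singularity at every point of `[0,1]`.
-/

namespace Pool.Agent.Results.MP_30394b_an.StronglyAlgebrable

open Filter Topology Set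
open scoped ContDiff Nat ENNReal Cardinal
open Pool.Agent.Lib.MP_30394b_an

/-- The radius of convergence of the Taylor series of `f : [0,1] → 𝕜` at `x ∈ [0,1]`:
`1 / limsup |f^(n)(x) / n!|^(1/n)`, with one-sided derivatives at the end points.
(`IccExtend` extends `f` to the line, but derivatives are taken within `[0,1]`.) -/
noncomputable def radius {𝕜 : Type*} [RCLike 𝕜] (f : C(unitInterval, 𝕜)) (x : unitInterval) :
    ℝ≥0∞ :=
  (limsup (fun n : ℕ => (ENNReal.ofReal
    (‖iteratedDerivWithin n (Set.IccExtend zero_le_one f) (Set.Icc (0 : ℝ) 1) (x : ℝ)‖ /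
      (n ! : ℝ))) ^ (1 / (n : ℝ))) atTop)⁻¹

/-- `PS 𝕜`: the infinitely differentiable functions `[0,1] → 𝕜` with a Pringsheim singularity
(zero radius of convergence of the Taylor series) at every point of `[0,1]`. -/
def PS (𝕜 : Type*) [RCLike 𝕜] : Set C(unitInterval, 𝕜) :=
  {f | ContDiffOn ℝ ∞ (Set.IccExtend zero_le_one f) (Set.Icc (0 : ℝ) 1) ∧
    ∀ x : unitInterval, radius f x = 0}

/-- `A` is strongly `κ`-algebrable in `C([0,1], 𝕜)`: there is a set `S` of `κ` many algebraically
independent elements such that all nonzero elements of the (non-unital) algebra generated by `S`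
lie in `A`. -/
def IsStronglyAlgebrable {𝕜 : Type*} [RCLike 𝕜] (κ : Cardinal) (A : Set C(unitInterval, 𝕜)) :
    Prop :=
  ∃ S : Set C(unitInterval, 𝕜), #S = κ ∧
    AlgebraicIndependent 𝕜 (fun s : S => (s : C(unitInterval, 𝕜))) ∧
    ∀ g ∈ NonUnitalAlgebra.adjoin 𝕜 S, g ≠ 0 → g ∈ A

section

variable {𝕜 : Type*} [RCLike 𝕜]

/-- the exponential `exp (γ sing)` as a `𝕜`-valued function on the line -/
noncomputable def Eline (γ : ℝ) (x : ℝ) : 𝕜 := ((Real.exp (γ * sing x) : ℝ) : 𝕜)

theorem contDiff_Eline (γ : ℝ) : ContDiff ℝ ∞ (Eline γ : ℝ → 𝕜) := by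
  have h1 : ContDiff ℝ ∞ (fun x => Real.exp (γ * sing x)) :=
    (contDiff_const.mul contDiff_sing).exp
  exact (RCLike.ofRealCLM (K := 𝕜)).contDiff.comp h1

/-- the exponential `exp (γ sing)` as an element of `C([0,1], 𝕜)` -/
noncomputable def E (γ : ℝ) : C(unitInterval, 𝕜) :=
  ⟨fun x => Eline γ (x : ℝ), (contDiff_Eline γ).continuous.comp continuous_subtype_val⟩

theorem E_mul (γ δ : ℝ) : (E γ * E δ : C(unitInterval, 𝕜)) = E (γ + δ) := by
  ext x
  simp only [E, ContinuousMap.mul_apply, ContinuousMap.coe_mk, Eline]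
  rw [add_mul, Real.exp_add, RCLike.ofReal_mul]

/-- the combination of exponentials on the line -/
noncomputable def Hline (a : ℝ →₀ 𝕜) (x : ℝ) : 𝕜 := a.sum fun γ c => c * Eline γ x

theorem contDiff_Hline (a : ℝ →₀ 𝕜) : ContDiff ℝ ∞ (Hline a) := by
  have h : Hline a = fun x => ∑ γ ∈ a.support, a γ * Eline γ x := by
    funext x; rfl
  rw [h]
  exact ContDiff.sum fun γ _ => contDiff_const.mul (contDiff_Eline γ)

theorem linearCombination_apply (a : ℝ →₀ 𝕜) (x : unitInterval) :
    (Finsupp.linearCombination 𝕜 (E : ℝ → C(unitInterval, 𝕜)) a) x = Hline a (x : ℝ) := by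
  rw [Finsupp.linearCombination_apply, Finsupp.sum, ContinuousMap.sum_apply]
  rfl

/-- applying a real-linear functional of norm at most one -/
theorem functional (L : 𝕜 →L[ℝ] ℝ) (hL : ∀ z, |L z| ≤ ‖z‖) (a : ℝ →₀ 𝕜) (x : ℝ) (n : ℕ) :
    |iteratedDeriv n (fun x => expSum (a.mapRange L (map_zero L)) (sing x)) x| ≤
      ‖iteratedDeriv n (Hline a) x‖ := by
  have h1 : (fun x => expSum (a.mapRange L (map_zero L)) (sing x)) = L ∘ (Hline a) := by
    funext y
    simp only [Function.comp_apply, Hline, expSum]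
    rw [Finsupp.sum_mapRange_index (by simp), Finsupp.sum, Finsupp.sum, map_sum]
    refine Finset.sum_congr rfl fun γ _ => ?_
    have h2 : a γ * (Eline γ y : 𝕜) = (Real.exp (γ * sing y)) • a γ := by
      rw [RCLike.real_smul_eq_coe_mul, mul_comm]; rfl
    rw [h2, map_smul, smul_eq_mul, mul_comm]
  rw [h1, iteratedDeriv_eq_iteratedFDeriv,
    L.iteratedFDeriv_comp_left (contDiff_Hline a).contDiffAt (by exact_mod_cast le_top)]
  rw [ContinuousLinearMap.compContinuousMultilinearMap_coe, Function.comp_apply,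
    ← iteratedDeriv_eq_iteratedFDeriv]
  exact hL _

theorem exists_functional {z : 𝕜} (hz : z ≠ 0) :
    ∃ L : 𝕜 →L[ℝ] ℝ, (∀ w, |L w| ≤ ‖w‖) ∧ L z ≠ 0 := by
  by_cases h : RCLike.re z = 0
  · refine ⟨RCLike.imCLM, fun w => RCLike.abs_im_le_norm w, ?_⟩
    intro h2
    apply hz
    have h3 : RCLike.im z = 0 := h2
    rw [← RCLike.re_add_im z, h, h3]
    simp
  · exact ⟨RCLike.reCLM, fun w => RCLike.abs_re_le_norm w, h⟩

/-- the Taylor coefficients of a nonconstant combination are not geometrically bounded -/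
theorem not_bounded {a : ℝ →₀ 𝕜} (ha : ∃ γ, γ ≠ 0 ∧ a γ ≠ 0) (x : ℝ) {C M : ℝ} (hM : 0 < M)
    (h : ∀ n, ‖iteratedDeriv n (Hline a) x‖ / (n ! : ℝ) ≤ C * M ^ n) : False := by
  obtain ⟨γ, hγ0, hγ⟩ := ha
  obtain ⟨L, hL, hLγ⟩ := exists_functional hγ
  refine key (b := a.mapRange L (map_zero L)) ⟨γ, hγ0, by simpa using hLγ⟩ x hM (C := C) ?_
  intro n
  have h1 := functional L hL a x n
  have hfac : (0 : ℝ) < (n ! : ℝ) := by positivity
  rw [abs_div, Nat.abs_cast]
  exact (div_le_div_of_nonneg_right h1 hfac.le).trans (h n)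

/-- linear independence of the exponentials on `[0,1]` -/
theorem linearIndependent_E : LinearIndependent 𝕜 (E : ℝ → C(unitInterval, 𝕜)) := by
  rw [linearIndependent_iff]
  intro a ha
  have hzero : ∀ x : unitInterval, Hline a (x : ℝ) = 0 := by
    intro x
    rw [← linearCombination_apply, ha]; rfl
  by_cases h : ∃ γ, γ ≠ 0 ∧ a γ ≠ 0
  · exfalso
    refine not_bounded h (1 / 2) (C := 0) (M := 1) one_pos ?_
    intro n
    have hev : Hline a =ᶠ[𝓝 (1 / 2 : ℝ)] fun _ => (0 : 𝕜) := by
      have : Ioo (0 : ℝ) 1 ∈ 𝓝 (1 / 2 : ℝ) := Ioo_mem_nhds (by norm_num) (by norm_num)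
      filter_upwards [this] with y hy
      exact hzero ⟨y, hy.1.le, hy.2.le⟩
    rw [hev.iteratedDeriv_eq]
    simp
  · push Not at h
    have h1 : a = Finsupp.single 0 (a 0) := by
      ext γ
      by_cases hγ : γ = 0
      · rw [hγ, Finsupp.single_eq_same]
      · rw [h γ hγ, Finsupp.single_eq_of_ne hγ]
    have h2 := hzero 0
    rw [h1] at h2
    have h3 : a 0 = 0 := by
      unfold Hline at h2
      rw [Finsupp.sum_single_index (by simp)] at h2
      simpa [Eline] using h2
    rw [h1, h3, Finsupp.single_zero]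

/-- every combination of exponentials with a nonzero coefficient at a nonzero exponent is in
`PS` -/
theorem mem_PS {a : ℝ →₀ 𝕜} (ha : ∃ γ, γ ≠ 0 ∧ a γ ≠ 0) :
    Finsupp.linearCombination 𝕜 (E : ℝ → C(unitInterval, 𝕜)) a ∈ PS 𝕜 := by
  set f := Finsupp.linearCombination 𝕜 (E : ℝ → C(unitInterval, 𝕜)) a with hf
  have heq : EqOn (Set.IccExtend zero_le_one f) (Hline a) (Set.Icc (0 : ℝ) 1) := by
    intro y hy
    rw [Set.IccExtend_of_mem _ _ hy, hf, linearCombination_apply]
  refine ⟨(contDiff_Hline a).contDiffOn.congr heq, ?_⟩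
  intro x
  unfold radius
  rw [ENNReal.inv_eq_zero]
  by_contra hne
  obtain ⟨M, hM0, hM⟩ := ENNReal.lt_iff_exists_nnreal_btwn.1 (lt_top_iff_ne_top.2 hne)
  have hev := eventually_lt_of_limsup_lt hM0
  have hder : ∀ n, iteratedDerivWithin n (Set.IccExtend zero_le_one f) (Set.Icc (0 : ℝ) 1) (x : ℝ) =
      iteratedDeriv n (Hline a) (x : ℝ) := by
    intro n
    rw [iteratedDerivWithin_congr heq x.2]
    exact iteratedDerivWithin_eq_iteratedDeriv (uniqueDiffOn_Icc zero_lt_one)
      ((contDiff_Hline a).contDiffAt.of_le (by exact_mod_cast le_top)) x.2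
  simp_rw [hder] at hev
  obtain ⟨N, hN⟩ := eventually_atTop.1 hev
  -- geometric bound for large `n`
  have hb : ∀ n, N + 1 ≤ n → ‖iteratedDeriv n (Hline a) (x : ℝ)‖ / (n ! : ℝ) ≤ (M : ℝ) ^ n := by
    intro n hn
    have h1 := hN n (by omega)
    have hn0 : (n : ℝ) ≠ 0 := by
      have : n ≠ 0 := by omega
      exact_mod_cast this
    have h2 := ENNReal.rpow_le_rpow h1.le (show (0 : ℝ) ≤ n by positivity)
    rw [← ENNReal.rpow_mul, one_div, inv_mul_cancel₀ hn0, ENNReal.rpow_one, ENNReal.rpow_natCast,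
      ← ENNReal.coe_pow] at h2
    have h3 := ENNReal.toReal_mono ENNReal.coe_ne_top h2
    rw [ENNReal.toReal_ofReal (by positivity)] at h3
    simpa using h3
  -- geometric bound for all `n`
  set C : ℝ := ∑ n ∈ Finset.range (N + 1), ‖iteratedDeriv n (Hline a) (x : ℝ)‖ / (n ! : ℝ) with hC
  have hC0 : 0 ≤ C := Finset.sum_nonneg fun n _ => by positivity
  refine not_bounded ha (x : ℝ) (C := C + 1) (M := (M : ℝ) + 1) (by positivity) ?_
  intro n
  have hM1 : (1 : ℝ) ≤ ((M : ℝ) + 1) ^ n := one_le_pow₀ (by linarith [M.2])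
  by_cases hn : n < N + 1
  · have h1 : ‖iteratedDeriv n (Hline a) (x : ℝ)‖ / (n ! : ℝ) ≤ C :=
      Finset.single_le_sum (f := fun n => ‖iteratedDeriv n (Hline a) (x : ℝ)‖ / (n ! : ℝ))
        (fun n _ => by positivity) (Finset.mem_range.2 hn)
    nlinarith
  · have h1 := hb n (by omega)
    have h2 : (M : ℝ) ^ n ≤ ((M : ℝ) + 1) ^ n :=
      pow_le_pow_left₀ M.2 (le_add_of_nonneg_right zero_le_one) n
    nlinarith

/-- the span of the exponentials with positive exponents is closed under multiplication and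
contains the algebra generated by any of them -/
theorem adjoin_subset {S : Set C(unitInterval, 𝕜)} (hS : S ⊆ E '' Ioi (0 : ℝ))
    {g : C(unitInterval, 𝕜)} (hg : g ∈ NonUnitalAlgebra.adjoin 𝕜 S) :
    g ∈ Submodule.span 𝕜 (E '' Ioi (0 : ℝ)) := by
  induction hg using NonUnitalAlgebra.adjoin_induction with
  | mem x hx => exact Submodule.subset_span (hS hx)
  | add x y _ _ hx hy => exact Submodule.add_mem _ hx hy
  | zero => exact Submodule.zero_mem _
  | mul x y _ _ hx hy =>
    have h1 := Submodule.mul_mem_mul hx hy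
    rw [Submodule.span_mul_span] at h1
    refine Submodule.span_mono ?_ h1
    rintro _ ⟨_, ⟨γ, hγ, rfl⟩, _, ⟨δ, hδ, rfl⟩, rfl⟩
    exact ⟨γ + δ, show (0 : ℝ) < γ + δ from add_pos hγ hδ, (E_mul γ δ).symm⟩
  | smul r x _ hx => exact Submodule.smul_mem _ r hx

/-- algebraic independence of the exponentials with rationally independent exponents -/
theorem algebraicIndependent_E {ι : Type*} {β : ι → ℝ} (hβ : LinearIndependent ℚ β) :
    AlgebraicIndependent 𝕜 (fun i => (E (β i) : C(unitInterval, 𝕜))) := by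
  rw [algebraicIndependent_iff]
  intro p hp
  -- exponents
  set e : (ι →₀ ℕ) → ℝ := fun m => m.sum fun i k => (k : ℝ) * β i with he
  have heinj : Function.Injective e := by
    intro m m' hmm
    have h1 : Finsupp.linearCombination ℚ β (m.mapRange (fun k : ℕ => (k : ℚ)) (by simp)) =
        Finsupp.linearCombination ℚ β (m'.mapRange (fun k : ℕ => (k : ℚ)) (by simp)) := by
      rw [Finsupp.linearCombination_apply, Finsupp.linearCombination_apply,
        Finsupp.sum_mapRange_index (by simp), Finsupp.sum_mapRange_index (by simp)]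
      simp only [he] at hmm
      convert hmm using 2
      · funext i k
        rw [Rat.smul_def]; simp
      · funext i k
        rw [Rat.smul_def]; simp
    have h2 := hβ h1
    ext i
    have h3 := DFunLike.congr_fun h2 i
    simpa using h3
  have hmon : ∀ m : ι →₀ ℕ, (m.prod fun i k => (E (β i) : C(unitInterval, 𝕜)) ^ k) = E (e m) := by
    intro m
    ext x
    simp only [he, Finsupp.prod, Finsupp.sum, E, Eline, ContinuousMap.coe_mk]
    rw [ContinuousMap.prod_apply, Finset.sum_mul, Real.exp_sum, RCLike.ofReal_prod]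
    refine Finset.prod_congr rfl fun i _ => ?_
    rw [ContinuousMap.pow_apply, ContinuousMap.coe_mk, mul_assoc, Real.exp_nat_mul,
      RCLike.ofReal_pow]
  have hlin : LinearIndependent 𝕜 (fun m : ι →₀ ℕ => (E (e m) : C(unitInterval, 𝕜))) :=
    linearIndependent_E.comp e heinj
  rw [MvPolynomial.aeval_def, MvPolynomial.eval₂_eq] at hp
  have h1 : ∑ m ∈ p.support, p.coeff m • (E (e m) : C(unitInterval, 𝕜)) = 0 := by
    rw [← hp]
    refine Finset.sum_congr rfl fun m _ => ?_
    rw [Algebra.smul_def, ← hmon m]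
    rfl
  have h2 := (linearIndependent_iff'.1 hlin) p.support p.coeff h1
  ext m
  by_cases hm : m ∈ p.support
  · rw [h2 m hm]; simp
  · rw [MvPolynomial.notMem_support_iff.1 hm]; simp

/-- a rationally independent family of continuum many positive reals -/
theorem exists_positive_basis : ∃ (ι : Type) (β : ι → ℝ), #ι = 𝔠 ∧ LinearIndependent ℚ β ∧
    ∀ i, 0 < β i := by
  classical
  let b := Module.Basis.ofVectorSpace ℚ ℝ
  let ε : (Module.Basis.ofVectorSpaceIndex ℚ ℝ) → ℚˣ := fun i => if 0 < b i then 1 else -1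
  refine ⟨Module.Basis.ofVectorSpaceIndex ℚ ℝ, fun i => ε i • b i, ?_, ?_, ?_⟩
  · rw [← Real.rank_rat_real]
    exact b.mk_eq_rank''
  · exact b.linearIndependent.units_smul ε
  · intro i
    have hne : b i ≠ 0 := b.ne_zero i
    by_cases h : 0 < b i
    · simp only [ε, if_pos h, one_smul]
      exact h
    · have h2 : b i < 0 := lt_of_le_of_ne (not_lt.1 h) hne
      simp only [ε, if_neg h]
      have : (-1 : ℚˣ) • b i = - b i := by
        rw [Units.smul_def, Rat.smul_def]
        simp
      rw [this]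
      linarith

end

/-- **Main result.** For `𝕜 = ℝ` or `𝕜 = ℂ`, the set `PS 𝕜` of all infinitely differentiable
functions on `[0,1]` having a Pringsheim singularity at every point is strongly `𝔠`-algebrable
in `C([0,1], 𝕜)`. -/
theorem result (𝕜 : Type*) [RCLike 𝕜] : IsStronglyAlgebrable 𝔠 (PS 𝕜) := by
  obtain ⟨ι, β, hι, hβ, hpos⟩ := exists_positive_basis
  have hai := algebraicIndependent_E (𝕜 := 𝕜) hβ
  refine ⟨range fun i => (E (β i) : C(unitInterval, 𝕜)), ?_, hai.coe_range, ?_⟩
  · have h1 := Cardinal.mk_range_eq_of_injective hai.injective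
    rw [hι, Cardinal.lift_continuum] at h1
    exact le_antisymm (Cardinal.lift_le_continuum.1 h1.le) (Cardinal.continuum_le_lift.1 h1.ge)
  · intro g hg hg0
    have hsub : range (fun i => (E (β i) : C(unitInterval, 𝕜))) ⊆ E '' Ioi (0 : ℝ) := by
      rintro _ ⟨i, rfl⟩
      exact ⟨β i, hpos i, rfl⟩
    have h1 := adjoin_subset hsub hg
    rw [Finsupp.mem_span_image_iff_linearCombination] at h1
    obtain ⟨a, ha, rfl⟩ := h1
    refine mem_PS ?_
    have ha0 : a ≠ 0 := by
      rintro rfl
      exact hg0 (map_zero _)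
    obtain ⟨γ, hγ⟩ := Finsupp.ne_iff.1 ha0
    refine ⟨γ, ?_, hγ⟩
    have h2 : γ ∈ Ioi (0 : ℝ) := ha (Finsupp.mem_support_iff.2 hγ)
    exact ne_of_gt h2

end Pool.Agent.Results.MP_30394b_an.StronglyAlgebrable
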